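import Pool.Agent.helper80.VQ.SpecFL

/-!
# MP_07c750_an, project VQ, block FL, row vq:FX4
-/

set_option autoImplicit false

open scoped MatrixGroups ContDiff Topology UpperHalfPlane ComplexConjugate ENNReal
open UpperHalfPlane MeasureTheory Filter Set

namespace Pool.Agent.VQ

open Pool.Agent.RS
open Pool.Agent.VQE (nm)

noncomputable section

theorem FX4_m4_inj {g h : SL(2, ℝ)} (H : m4 g = m4 h) : g = h := by
  apply Subtype.ext
  ext i j
  have h0 := congrFun H 0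
  have h1 := congrFun H 1
  have h2 := congrFun H 2
  have h3 := congrFun H 3
  fin_cases i <;> fin_cases j
  · exact h0
  · exact h1
  · exact h2
  · exact h3

theorem FX4_dt (g : SL(2, ℝ)) : dt4 (m4 g) = 1 := by
  have h : g.1.det = 1 := g.2
  rw [Matrix.det_fin_two] at h
  exact h

/-- the matrix with given entries -/
def FX4_of (x : F4) : SL(2, ℝ) := if h : dt4 x = 1 then ⟨!![x 0, x 1; x 2, x 3], by
  rw [Matrix.det_fin_two_of]; exact h⟩ else 1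

theorem FX4_m4_of {x : F4} (h : dt4 x = 1) : m4 (FX4_of x) = x := by
  unfold FX4_of
  rw [dif_pos h]
  funext i
  fin_cases i <;> rfl

theorem FX4_smooth {ρ κ : F4 × ℝ → ℝ} (hρ : ContDiff ℝ ∞ ρ) (hκ : ContDiff ℝ ∞ κ) : ContDiff ℝ 2 (f4 ρ κ) := by
  have hρ2 : ContDiff ℝ 2 ρ := by exact_mod_cast contDiff_infty.1 hρ 2
  have hκ2 : ContDiff ℝ 2 κ := by exact_mod_cast contDiff_infty.1 hκ 2
  have hx : ∀ i : Fin 4, ContDiff ℝ 2 (fun y : F4 × ℝ => y.1 i) := fun i =>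
    (contDiff_apply ℝ ℝ i).comp contDiff_fst
  unfold f4 mu4
  refine ContDiff.prodMk ?_ contDiff_const
  rw [contDiff_pi]
  intro i
  fin_cases i
  · exact ((hx 0).mul (hρ2.div_const 2)).add ((hx 1).mul ((hκ2.div_const 2).neg))
  · exact ((hx 0).mul (hκ2.div_const 2)).sub ((hx 1).mul (hρ2.div_const 2))
  · exact ((hx 2).mul (hρ2.div_const 2)).add ((hx 3).mul ((hκ2.div_const 2).neg))
  · exact ((hx 2).mul (hκ2.div_const 2)).sub ((hx 3).mul (hρ2.div_const 2))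

theorem FX4_bd {C : ℝ} {ρ κ : F4 × ℝ → ℝ} (hC : 0 ≤ C) (hb : ∀ y, |ρ y| ≤ C ∧ |κ y| ≤ C) (y : F4 × ℝ) : ‖f4 ρ κ y‖ ≤ C * (1 + ‖y‖) := by
  obtain ⟨h1, h2⟩ := hb y
  have hx : ∀ i, |y.1 i| ≤ ‖y‖ := fun i => (norm_le_pi_norm y.1 i).trans (norm_fst_le y)
  have key : ∀ a b p q : ℝ, |a| ≤ ‖y‖ → |b| ≤ ‖y‖ → |p| ≤ C / 2 → |q| ≤ C / 2 → |a * p + b * q| ≤ C * (1 + ‖y‖) := by
    intro a b p q ha hb hp hq
    have h3 := abs_add_le (a * p) (b * q)
    rw [abs_mul, abs_mul] at h3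
    have h4 : |a| * |p| ≤ ‖y‖ * (C / 2) := mul_le_mul ha hp (abs_nonneg p) (norm_nonneg y)
    have h5 : |b| * |q| ≤ ‖y‖ * (C / 2) := mul_le_mul hb hq (abs_nonneg q) (norm_nonneg y)
    linarith
  have hp : |ρ y / 2| ≤ C / 2 := by rw [abs_div, abs_two]; linarith
  have hq : |κ y / 2| ≤ C / 2 := by rw [abs_div, abs_two]; linarith
  have hp' : |-(ρ y / 2)| ≤ C / 2 := by rw [abs_neg]; exact hp
  have hq' : |-(κ y / 2)| ≤ C / 2 := by rw [abs_neg]; exact hq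
  have hn : 0 ≤ C * (1 + ‖y‖) := by positivity
  unfold f4
  rw [Prod.norm_mk, norm_zero, max_le_iff]
  refine ⟨(pi_norm_le_iff_of_nonneg hn).2 fun i => ?_, hn⟩
  rw [Real.norm_eq_abs]
  fin_cases i
  · exact key (y.1 0) (y.1 1) (ρ y / 2) (-(κ y / 2)) (hx 0) (hx 1) hp hq'
  · show |y.1 0 * (κ y / 2) - y.1 1 * (ρ y / 2)| ≤ _
    have e : y.1 0 * (κ y / 2) - y.1 1 * (ρ y / 2) = y.1 0 * (κ y / 2) + y.1 1 * (-(ρ y / 2)) := by ring
    rw [e]
    exact key (y.1 0) (y.1 1) (κ y / 2) (-(ρ y / 2)) (hx 0) (hx 1) hq hp'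
  · exact key (y.1 2) (y.1 3) (ρ y / 2) (-(κ y / 2)) (hx 2) (hx 3) hp hq'
  · show |y.1 2 * (κ y / 2) - y.1 3 * (ρ y / 2)| ≤ _
    have e : y.1 2 * (κ y / 2) - y.1 3 * (ρ y / 2) = y.1 2 * (κ y / 2) + y.1 3 * (-(ρ y / 2)) := by ring
    rw [e]
    exact key (y.1 2) (y.1 3) (κ y / 2) (-(ρ y / 2)) (hx 2) (hx 3) hq hp'

theorem FX4_const {f : ℝ → ℝ} (h : ∀ t, HasDerivAt f 0 t) (t : ℝ) : f t = f 0 :=
  is_const_of_deriv_eq_zero (fun s => (h s).differentiableAt) (fun s => (h s).deriv) t 0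

theorem FX4_proof (hGFL : GFL_stmt) : FX4_stmt := by
  intro e C U ρ κ hE
  have hC : 0 ≤ C := (abs_nonneg _).trans (hE.bd (0, 0)).1
  obtain ⟨Φ, hΦ, hun⟩ := hGFL (F4 × ℝ) (f4 ρ κ) C (FX4_smooth hE.sr hE.sk) hC (FX4_bd hC hE.bd)
  have hd : ∀ (y : F4 × ℝ) (t : ℝ), HasDerivAt (fun s => Φ s y) (f4 ρ κ (Φ t y)) t := fun y t => hΦ.ode y t
  have h0 : ∀ y, Φ 0 y = y := hΦ.zero
  have hd2 : ∀ (y : F4 × ℝ) (t : ℝ), HasDerivAt (fun s => (Φ s y).2) 0 t := fun y t => (hd y t).snd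
  have hd1 : ∀ (y : F4 × ℝ) (t : ℝ) (i : Fin 4), HasDerivAt (fun s => (Φ s y).1 i) ((f4 ρ κ (Φ t y)).1 i) t :=
    fun y t i => (hasDerivAt_pi.1 (hd y t).fst) i
  have hc2 : ∀ (t : ℝ) (y : F4 × ℝ), (Φ t y).2 = y.2 := by
    intro t y
    have h1 := FX4_const (hd2 y) t
    rw [h1, h0]
  have hcd : ∀ (t : ℝ) (y : F4 × ℝ), dt4 (Φ t y).1 = dt4 y.1 := by
    intro t y
    have h1 : ∀ t, HasDerivAt (fun s => dt4 (Φ s y).1) 0 t := by
      intro t
      have h2 := ((hd1 y t 0).mul (hd1 y t 3)).sub ((hd1 y t 1).mul (hd1 y t 2))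
      have e : ((f4 ρ κ (Φ t y)).1 0 * (Φ t y).1 3 + (Φ t y).1 0 * (f4 ρ κ (Φ t y)).1 3) -
          ((f4 ρ κ (Φ t y)).1 1 * (Φ t y).1 2 + (Φ t y).1 1 * (f4 ρ κ (Φ t y)).1 2) = 0 := by
        have f0 : (f4 ρ κ (Φ t y)).1 0 = (Φ t y).1 0 * (ρ (Φ t y) / 2) + (Φ t y).1 1 * (-(κ (Φ t y) / 2)) := rfl
        have f1 : (f4 ρ κ (Φ t y)).1 1 = (Φ t y).1 0 * (κ (Φ t y) / 2) - (Φ t y).1 1 * (ρ (Φ t y) / 2) := rfl
        have f2 : (f4 ρ κ (Φ t y)).1 2 = (Φ t y).1 2 * (ρ (Φ t y) / 2) + (Φ t y).1 3 * (-(κ (Φ t y) / 2)) := rfl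
        have f3 : (f4 ρ κ (Φ t y)).1 3 = (Φ t y).1 2 * (κ (Φ t y) / 2) - (Φ t y).1 3 * (ρ (Φ t y) / 2) := rfl
        rw [f0, f1, f2, f3]
        ring
      rw [e] at h2
      exact h2
    have h3 := FX4_const h1 t
    rw [h3, h0]
  obtain ⟨fl, hfl⟩ : ∃ fl : ℝ → ℝ → SL(2, ℝ) → SL(2, ℝ), ∀ E t g, fl E t g = FX4_of (Φ t (m4 g, E)).1 :=
    ⟨fun E t g => FX4_of (Φ t (m4 g, E)).1, fun _ _ _ => rfl⟩
  have hdt : ∀ E t g, dt4 (Φ t (m4 g, E)).1 = 1 := by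
    intro E t g
    rw [hcd]
    exact FX4_dt g
  have hm : ∀ E t g, m4 (fl E t g) = (Φ t (m4 g, E)).1 := by
    intro E t g
    rw [hfl, FX4_m4_of (hdt E t g)]
  have hΦm : ∀ E t g, Φ t (m4 g, E) = (m4 (fl E t g), E) := by
    intro E t g
    rw [hm]
    exact Prod.ext rfl (hc2 t _)
  have hcont : Continuous fun p : ℝ × (F4 × ℝ) => Φ p.1 p.2 := hΦ.cont
  have hm4c : Continuous m4 := by
    have h1 : Continuous fun g : SL(2, ℝ) => g.1 := continuous_subtype_val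
    refine continuous_pi fun i => ?_
    fin_cases i
    · exact h1.matrix_elem 0 0
    · exact h1.matrix_elem 0 1
    · exact h1.matrix_elem 1 0
    · exact h1.matrix_elem 1 1
  refine ⟨Φ, fl, ⟨hE, hΦ, hun, fun t y => ⟨hc2 t y, hcd t y⟩, fun E t g _ => hΦm E t g⟩, ?_, ?_, ?_⟩
  · have h1 : Continuous fun p : ℝ × ℝ × SL(2, ℝ) => (Φ p.2.1 (m4 p.2.2, p.1)).1 :=
      continuous_fst.comp (hcont.comp ((continuous_fst.comp continuous_snd).prodMk
        ((hm4c.comp (continuous_snd.comp continuous_snd)).prodMk continuous_fst)))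
    have h2 : ∀ i : Fin 4, Continuous fun p : ℝ × ℝ × SL(2, ℝ) => m4 (fl p.1 p.2.1 p.2.2) i := by
      intro i
      simp only [hm]
      exact (continuous_apply i).comp h1
    apply Continuous.subtype_mk (f := fun p : ℝ × ℝ × SL(2, ℝ) => (fl p.1 p.2.1 p.2.2).1)
    refine continuous_matrix fun i j => ?_
    fin_cases i <;> fin_cases j
    · exact h2 0
    · exact h2 1
    · exact h2 2
    · exact h2 3
  · intro E g
    apply FX4_m4_inj
    rw [hm, h0]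
  · intro E t g hEb i j
    have hX : f4 ρ κ (m4 (fl E t g), E) = (mu4 (m4 (fl E t g)) (rho U E (fl E t g) / 2) (kap U E (fl E t g) / 2)
        (-(kap U E (fl E t g) / 2)), 0) := by
      obtain ⟨h1, h2⟩ := hE.eq E 1 (fl E t g) hEb (by norm_num) (by norm_num)
      rw [one_smul] at h1 h2
      unfold f4
      rw [h1, h2]
    have hder : ∀ k : Fin 4, HasDerivAt (fun s => m4 (fl E s g) k)
        (mu4 (m4 (fl E t g)) (rho U E (fl E t g) / 2) (kap U E (fl E t g) / 2) (-(kap U E (fl E t g) / 2)) k) t := by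
      intro k
      have h3 := hd1 (m4 g, E) t k
      rw [hΦm, hX] at h3
      simp only [hm]
      simp only [hm] at h3
      exact h3
    have e00 : XX U E (fl E t g) 0 0 = rho U E (fl E t g) / 2 := by simp [XX, A0, K0]; ring
    have e01 : XX U E (fl E t g) 0 1 = kap U E (fl E t g) / 2 := by simp [XX, A0, K0]; ring
    have e10 : XX U E (fl E t g) 1 0 = -(kap U E (fl E t g) / 2) := by simp [XX, A0, K0]; ring
    have e11 : XX U E (fl E t g) 1 1 = -(rho U E (fl E t g) / 2) := by simp [XX, A0, K0]; ring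
    rw [Matrix.mul_apply, Fin.sum_univ_two]
    fin_cases i <;> fin_cases j
    · have h4 := hder 0
      have e : mu4 (m4 (fl E t g)) (rho U E (fl E t g) / 2) (kap U E (fl E t g) / 2) (-(kap U E (fl E t g) / 2)) 0 =
          (fl E t g).1 0 0 * XX U E (fl E t g) 0 0 + (fl E t g).1 0 1 * XX U E (fl E t g) 1 0 := by
        rw [e00, e10]
        rfl
      rw [e] at h4
      exact h4
    · have h4 := hder 1
      have e : mu4 (m4 (fl E t g)) (rho U E (fl E t g) / 2) (kap U E (fl E t g) / 2) (-(kap U E (fl E t g) / 2)) 1 =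
          (fl E t g).1 0 0 * XX U E (fl E t g) 0 1 + (fl E t g).1 0 1 * XX U E (fl E t g) 1 1 := by
        rw [e01, e11, mul_neg, ← sub_eq_add_neg]
        rfl
      rw [e] at h4
      exact h4
    · have h4 := hder 2
      have e : mu4 (m4 (fl E t g)) (rho U E (fl E t g) / 2) (kap U E (fl E t g) / 2) (-(kap U E (fl E t g) / 2)) 2 =
          (fl E t g).1 1 0 * XX U E (fl E t g) 0 0 + (fl E t g).1 1 1 * XX U E (fl E t g) 1 0 := by
        rw [e00, e10]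
        rfl
      rw [e] at h4
      exact h4
    · have h4 := hder 3
      have e : mu4 (m4 (fl E t g)) (rho U E (fl E t g) / 2) (kap U E (fl E t g) / 2) (-(kap U E (fl E t g) / 2)) 3 =
          (fl E t g).1 1 0 * XX U E (fl E t g) 0 1 + (fl E t g).1 1 1 * XX U E (fl E t g) 1 1 := by
        rw [e01, e11, mul_neg, ← sub_eq_add_neg]
        rfl
      rw [e] at h4
      exact h4

end

end Pool.Agent.VQ
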