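import Pool.Agent.helper74.VQ.SpecA
import Pool.Agent.helper78.RPQ.SPM

/-!
# MP_07c750_an, project VQ, row vq:VGD (the Dirichlet integral)
-/

set_option autoImplicit false

open scoped MatrixGroups ContDiff Topology UpperHalfPlane ComplexConjugate ENNReal
open UpperHalfPlane MeasureTheory Filter Set

namespace Pool.Agent.VQ

open Pool.Agent.RS

noncomputable section

/-! ## Calculus -/

theorem VGD_ev {F : Type} [NormedAddCommGroup F] [NormedSpace ℝ F] {c : ℂ → ℂ →L[ℝ] F} {x : ℂ}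
    (hc : DifferentiableAt ℝ c x) (h : ℂ) : fderiv ℝ (fun w => c w h) x h = fderiv ℝ c x h h := by
  have h1 := (hc.hasFDerivAt.clm_apply (hasFDerivAt_const h x)).fderiv
  rw [h1]
  simp

theorem VGD_dd {F : Type} [NormedAddCommGroup F] [NormedSpace ℝ F] {f : ℂ → F} {x : ℂ}
    (hf : ContDiffAt ℝ 2 f x) : DifferentiableAt ℝ (fderiv ℝ f) x :=
  (hf.fderiv_right (m := 1) (by norm_num)).differentiableAt (by norm_num)

theorem VGD_evd {F : Type} [NormedAddCommGroup F] [NormedSpace ℝ F] {f : ℂ → F} {x : ℂ}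
    (hf : ContDiffAt ℝ 2 f x) : ∀ᶠ w in 𝓝 x, DifferentiableAt ℝ f w := by
  filter_upwards [hf.eventually (by simp)] with w hw
  exact hw.differentiableAt (by norm_num)

theorem VGD_D2 {f : ℂ → ℂ} {x : ℂ} (hf : ContDiffAt ℝ 2 f x) (h : ℂ) :
    fderiv ℝ (fderiv ℝ (fun w => ‖f w‖ ^ 2)) x h h =
      2 * inner ℝ (f x) (fderiv ℝ (fderiv ℝ f) x h h) + 2 * ‖fderiv ℝ f x h‖ ^ 2 := by
  have hN : ContDiffAt ℝ 2 (fun w => ‖f w‖ ^ 2) x := hf.norm_sq ℝ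
  rw [← VGD_ev (VGD_dd hN) h]
  have h1 : (fun w => fderiv ℝ (fun w => ‖f w‖ ^ 2) w h) =ᶠ[𝓝 x]
      fun w => 2 * inner ℝ (f w) (fderiv ℝ f w h) := by
    filter_upwards [VGD_evd hf] with w hw
    have h2 := (hw.hasFDerivAt.norm_sq).fderiv
    rw [h2]
    simp
    ring
  rw [h1.fderiv_eq]
  have hd : DifferentiableAt ℝ (fun w => fderiv ℝ f w h) x :=
    (VGD_dd hf).clm_apply (differentiableAt_const h)
  have hfx : DifferentiableAt ℝ f x := hf.differentiableAt (by norm_num)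
  rw [fderiv_const_mul (hfx.inner ℝ hd)]
  show 2 * (fderiv ℝ (fun w => inner ℝ (f w) (fderiv ℝ f w h)) x h) = _
  rw [fderiv_inner_apply ℝ hfx hd, VGD_ev (VGD_dd hf) h, real_inner_self_eq_norm_sq]
  ring

theorem VGD_of {n : ℂ → ℝ} {x : ℂ} (hn : ContDiffAt ℝ 2 n x) (h : ℂ) :
    fderiv ℝ (fderiv ℝ (fun w => ((n w : ℝ) : ℂ))) x h h = ((fderiv ℝ (fderiv ℝ n) x h h : ℝ) : ℂ) := by
  have hN : ContDiffAt ℝ 2 (fun w => ((n w : ℝ) : ℂ)) x :=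
    Complex.ofRealCLM.contDiff.contDiffAt.comp x hn
  rw [← VGD_ev (VGD_dd hN) h]
  have h1 : (fun w => fderiv ℝ (fun w => ((n w : ℝ) : ℂ)) w h) =ᶠ[𝓝 x]
      fun w => ((fderiv ℝ n w h : ℝ) : ℂ) := by
    filter_upwards [VGD_evd hn] with w hw
    have h2 := (Complex.ofRealCLM.hasFDerivAt.comp w hw.hasFDerivAt).fderiv
    have h3 : (Complex.ofRealCLM ∘ n) = fun w => ((n w : ℝ) : ℂ) := rfl
    rw [h3] at h2
    rw [h2]
    rfl
  rw [h1.fderiv_eq]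
  have hd : DifferentiableAt ℝ (fun w => fderiv ℝ n w h) x :=
    (VGD_dd hn).clm_apply (differentiableAt_const h)
  have h2 := (Complex.ofRealCLM.hasFDerivAt.comp x hd.hasFDerivAt).fderiv
  have h3 : (Complex.ofRealCLM ∘ fun w => fderiv ℝ n w h) = fun w => ((fderiv ℝ n w h : ℝ) : ℂ) := rfl
  rw [h3] at h2
  rw [h2, ← VGD_ev (VGD_dd hn) h]
  rfl

/-! ## The gradient -/

/-- the square of the gradient -/
def VGD_G (φ : ℍ → ℂ) (z : ℍ) : ℝ := ‖QU.dX φ z‖ ^ 2 + ‖QU.dY φ z‖ ^ 2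

theorem VGD_onC (φ : ℍ → ℂ) (z : ℍ) : QU.onC φ (z : ℂ) = φ z := by
  unfold QU.onC
  rw [ofComplex_apply]

theorem VGD_cda {E : Type} [NormedAddCommGroup E] [NormedSpace ℝ E] {φ : ℍ → E} (hφ : QU.CD 2 φ) (z : ℍ) :
    ContDiffAt ℝ 2 (QU.onC φ) (z : ℂ) :=
  hφ.contDiffAt ((isOpen_lt continuous_const Complex.continuous_im).mem_nhds z.im_pos)

theorem VGD_G_eq (φ : ℍ → ℂ) (z : ℍ) : VGD_G φ z = z.im ^ 2 *
    (‖fderiv ℝ (QU.onC φ) (z : ℂ) 1‖ ^ 2 + ‖fderiv ℝ (QU.onC φ) (z : ℂ) Complex.I‖ ^ 2) := by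
  unfold VGD_G QU.dX QU.dY
  rw [norm_smul, norm_smul, mul_pow, mul_pow, Real.norm_eq_abs, sq_abs]
  ring

theorem VGD_lapN {φ : ℍ → ℂ} (hφ : QU.CD 2 φ) (z : ℍ) :
    QU.lap (fun z => ‖φ z‖ ^ 2) z = 2 * inner ℝ (φ z) (QU.lap φ z) - 2 * VGD_G φ z := by
  have h1 := VGD_D2 (VGD_cda hφ z) 1
  have h2 := VGD_D2 (VGD_cda hφ z) Complex.I
  rw [VGD_onC] at h1 h2
  rw [VGD_G_eq]
  unfold QU.lap
  have h3 : QU.onC (fun z => ‖φ z‖ ^ 2) = fun w => ‖QU.onC φ w‖ ^ 2 := rfl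
  rw [h3, h1, h2, smul_eq_mul, inner_smul_right, inner_add_right]
  ring

theorem VGD_cdN {φ : ℍ → ℂ} (hφ : QU.CD 2 φ) : QU.CD 2 (fun z => ‖φ z‖ ^ 2) :=
  ContDiffOn.norm_sq ℝ hφ

theorem VGD_cdP {φ : ℍ → ℂ} (hφ : QU.CD 2 φ) : QU.CD 2 (fun z => ((‖φ z‖ ^ 2 : ℝ) : ℂ)) :=
  Complex.ofRealCLM.contDiff.comp_contDiffOn (VGD_cdN hφ)

theorem VGD_lapP {φ : ℍ → ℂ} (hφ : QU.CD 2 φ) (z : ℍ) :
    QU.lap (fun z => ((‖φ z‖ ^ 2 : ℝ) : ℂ)) z = ((2 * inner ℝ (φ z) (QU.lap φ z) - 2 * VGD_G φ z : ℝ) : ℂ) := by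
  rw [← VGD_lapN hφ z]
  have h1 := VGD_of (VGD_cda (VGD_cdN hφ) z) 1
  have h2 := VGD_of (VGD_cda (VGD_cdN hφ) z) Complex.I
  unfold QU.lap
  have h3 : QU.onC (fun z => ((‖φ z‖ ^ 2 : ℝ) : ℂ)) = fun w => ((QU.onC (fun z => ‖φ z‖ ^ 2) w : ℝ) : ℂ) := rfl
  rw [h3, h1, h2, smul_eq_mul, ← Complex.ofReal_add, Complex.real_smul, ← Complex.ofReal_mul]

/-- the gradient in the disc coordinate -/
theorem VGD_grad (hVLP : VLP_stmt) {φ : ℍ → ℂ} (hφ : QU.CD 2 φ) (g : SL(2, ℝ)) {v : ℂ} (hv : ‖v‖ < 2) :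
    VGD_G φ (g • cdi v) = (1 - ‖v‖ ^ 2 / 4) ^ 2 * (‖fderiv ℝ (fun w : ℂ => φ (g • cdi w)) v 1‖ ^ 2 +
      ‖fderiv ℝ (fun w : ℂ => φ (g • cdi w)) v Complex.I‖ ^ 2) := by
  obtain ⟨h1, h2⟩ := hVLP.1 φ g v hφ hv
  obtain ⟨-, h3⟩ := hVLP.1 _ g v (VGD_cdP hφ) hv
  have hN : ContDiffAt ℝ 2 (fun w => ‖φ (g • cdi w)‖ ^ 2) v := h1.norm_sq ℝ
  rw [VGD_lapP hφ, VGD_of hN, VGD_of hN, VGD_D2 h1, VGD_D2 h1, ← Complex.ofReal_add, ← Complex.ofReal_neg,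
    ← Complex.ofReal_mul, Complex.ofReal_inj, h2] at h3
  rw [← Complex.ofReal_neg, ← Complex.real_smul, inner_smul_right, inner_add_right] at h3
  linear_combination (-1 / 2 : ℝ) * h3

/-! ## Integration -/

theorem VGD_Fmeas {Γ : Subgroup SL(2, ℝ)} {F : Set ℍ} (hD : Dm Γ F) : MeasurableSet F := by
  rcases hD with ⟨-, hF⟩ | ⟨-, hF⟩
  · exact hF.meas
  · rw [hF]
    exact MeasurableSet.univ

theorem VGD_base {Γ : Subgroup SL(2, ℝ)} {F : Set ℍ} (hD : Dm Γ F) (h : ℍ → ℝ≥0∞) (hm : Measurable h)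
    (hinv : ∀ (γ : Γ) (z : ℍ), h (γ • z) = h z) (z₀ : ℍ) :
    ∫⁻ g in dG F, h (g • z₀) ∂mG = ∫⁻ z in F, h z := by
  have hGLC := A_GLC
  have hGMG := A_GMG
  have _i1 := hGLC.2.1
  have _i2 := GFD_inv hGLC A_GLI Γ
  have hcI : Measurable fun g : SL(2, ℝ) => (g • I : ℍ) := GFD_contI.measurable
  obtain ⟨u, hu⟩ : ∃ u : SL(2, ℝ) → ℝ≥0∞, u = fun g => h (g • I) := ⟨_, rfl⟩
  obtain ⟨k, hk⟩ : ∃ k : SL(2, ℝ), k = toSL2R z₀ := ⟨_, rfl⟩
  have h1 : ∀ g : SL(2, ℝ), h (g • z₀) = u (g * k) := by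
    intro g
    rw [hu, hk]
    show h (g • z₀) = h ((g * toSL2R z₀) • I)
    rw [mul_smul, toSL2R_smul_I]
  have hmp : MeasurePreserving (fun g : SL(2, ℝ) => g * k) mG mG :=
    ⟨(continuous_mul_const k).measurable, A_GRI k⟩
  have hemb : MeasurableEmbedding (fun g : SL(2, ℝ) => g * k) := (Homeomorph.mulRight k).measurableEmbedding
  have e1 : dG F = (fun g : SL(2, ℝ) => g * k) ⁻¹' ((fun g : SL(2, ℝ) => g * k⁻¹) ⁻¹' dG F) := by
    ext g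
    simp only [mem_preimage, mul_inv_cancel_right]
  have e2 : ∫⁻ g in dG F, u (g * k) ∂mG = ∫⁻ g in (fun g : SL(2, ℝ) => g * k⁻¹) ⁻¹' dG F, u g ∂mG := by
    have := hmp.setLIntegral_comp_preimage_emb hemb u ((fun g : SL(2, ℝ) => g * k⁻¹) ⁻¹' dG F)
    rw [← e1] at this
    exact this
  have e3 : ∫⁻ g in (fun g : SL(2, ℝ) => g * k⁻¹) ⁻¹' dG F, u g ∂mG = ∫⁻ g in dG F, u g ∂mG := by
    rcases hD with ⟨hΓ, hF⟩ | ⟨-, hF⟩
    · have _i3 : Countable Γ := (QU.A_DOB Γ F hΓ hF).1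
      have f1 := GFD_fund hGLC hGMG Γ F hF k⁻¹
      have f2 := GFD_fund hGLC hGMG Γ F hF 1
      have e4 : (fun g : SL(2, ℝ) => g * 1) ⁻¹' dG F = dG F := by
        ext g
        simp only [mem_preimage, mul_one]
      rw [e4] at f2
      refine f1.setLIntegral_eq f2 u fun γ g => ?_
      rw [hu]
      show h (((γ : SL(2, ℝ)) * g) • I) = h (g • I)
      rw [mul_smul]
      exact hinv γ (g • I)
    · have e5 : dG F = univ := by
        rw [hF]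
        rfl
      rw [e5, preimage_univ]
  have e6 : Measure.map (fun g : SL(2, ℝ) => (g • I : ℍ)) mG = volume := by
    ext A hA
    rw [Measure.map_apply hcI hA]
    exact (hGMG.1 A hA).2
  have e7 : ∫⁻ g in dG F, u g ∂mG = ∫⁻ z in F, h z := by
    rw [← e6, setLIntegral_map (VGD_Fmeas hD) hm hcI, hu]
    rfl
  simp only [h1]
  rw [e2, e3, e7]

theorem VGD_cdi_im {v : ℂ} (hv : ‖v‖ < 2) : 0 < (Complex.I * (2 + v) / (2 - v)).im := by
  have h1 : (2 : ℂ) - v ≠ 0 := by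
    intro h0
    rw [← sub_eq_zero.1 h0] at hv
    norm_num at hv
  have h2 : 0 < Complex.normSq (2 - v) := Complex.normSq_pos.2 h1
  rw [Complex.div_im]
  have h3 : ‖v‖ ^ 2 < 4 := by nlinarith [norm_nonneg v]
  rw [← Complex.normSq_eq_norm_sq, Complex.normSq_apply] at h3
  rw [div_sub_div_same]
  apply div_pos _ h2
  simp
  nlinarith

theorem VGD_cdi_cont : ContinuousOn cdi (Metric.ball (0 : ℂ) 2) := by
  rw [UpperHalfPlane.isEmbedding_coe.continuousOn_iff]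
  have h1 : ContinuousOn (fun v : ℂ => Complex.I * (2 + v) / (2 - v)) (Metric.ball (0 : ℂ) 2) := by
    refine ContinuousOn.div (by fun_prop) (by fun_prop) ?_
    intro v hv h0
    rw [mem_ball_zero_iff, ← sub_eq_zero.1 h0] at hv
    norm_num at hv
  refine h1.congr fun v hv => ?_
  rw [mem_ball_zero_iff] at hv
  show ((cdi v : ℍ) : ℂ) = _
  unfold cdi
  rw [ofComplex_apply_of_im_pos (VGD_cdi_im hv)]

theorem VGD_pc {s : ℝ} (hs : s < 2) : ∃ c : ℂ → ℍ, Measurable c ∧ ∀ v ∈ Metric.closedBall (0 : ℂ) s, c v = cdi v := by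
  classical
  refine ⟨(Metric.closedBall (0 : ℂ) s).piecewise cdi (fun _ => I), ?_, ?_⟩
  · exact ContinuousOn.measurable_piecewise (VGD_cdi_cont.mono (Metric.closedBall_subset_ball hs))
      continuousOn_const Metric.isClosed_closedBall.measurableSet
  · intro v hv
    exact Set.piecewise_eq_of_mem _ _ _ hv

theorem VGD_fub {Γ : Subgroup SL(2, ℝ)} {F : Set ℍ} (hD : Dm Γ F) (h : ℍ → ℝ≥0∞) (hm : Measurable h)
    (hinv : ∀ (γ : Γ) (z : ℍ), h (γ • z) = h z) {s : ℝ} (hs : s < 2) :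
    ∫⁻ g in dG F, (∫⁻ v in Metric.closedBall (0 : ℂ) s, h (g • cdi v)) ∂mG =
      volume (Metric.closedBall (0 : ℂ) s) * ∫⁻ z in F, h z := by
  obtain ⟨c, hcm, hc⟩ := VGD_pc hs
  have h1 : ∀ g : SL(2, ℝ), (∫⁻ v in Metric.closedBall (0 : ℂ) s, h (g • cdi v)) =
      ∫⁻ v in Metric.closedBall (0 : ℂ) s, h (g • c v) := by
    intro g
    apply setLIntegral_congr_fun Metric.isClosed_closedBall.measurableSet
    intro v hv
    show h (g • cdi v) = h (g • c v)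
    rw [hc v hv]
  have _i1 := A_GLC.2.1
  have _i2 : SigmaFinite mG := A_GMG.2.2.1
  have hsm : Measurable fun p : SL(2, ℝ) × ℍ => (p.1 • p.2 : ℍ) := continuous_smul.measurable
  obtain ⟨K, hK⟩ : ∃ K : SL(2, ℝ) × ℍ → ℝ≥0∞, ∀ g z, K (g, z) = h (g • z) := ⟨fun p => h (p.1 • p.2), fun g z => rfl⟩
  have hKm : Measurable K := by
    have e : K = h ∘ (fun p : SL(2, ℝ) × ℍ => (p.1 • p.2 : ℍ)) := by
      funext p
      exact hK p.1 p.2
    rw [e]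
    exact hm.comp hsm
  have hm2 : Measurable (fun p : SL(2, ℝ) × ℂ => ((p.1, c p.2) : SL(2, ℝ) × ℍ)) :=
    Measurable.prodMk measurable_fst (hcm.comp measurable_snd)
  obtain ⟨W, hW⟩ : ∃ W : SL(2, ℝ) → ℂ → ℝ≥0∞, W = fun g v => K (g, c v) := ⟨_, rfl⟩
  have hmeas : Measurable (Function.uncurry W) := by
    rw [hW]
    exact hKm.comp hm2
  have h2 : ∀ v : ℂ, ∫⁻ g in dG F, W g v ∂mG = ∫⁻ z in F, h z := by
    intro v
    rw [hW]
    simp only [hK]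
    exact VGD_base hD h hm hinv (c v)
  have h3 : ∫⁻ g in dG F, (∫⁻ v in Metric.closedBall (0 : ℂ) s, h (g • cdi v)) ∂mG =
      ∫⁻ g in dG F, (∫⁻ v in Metric.closedBall (0 : ℂ) s, W g v) ∂mG := by
    apply lintegral_congr
    intro g
    rw [h1 g, hW]
    simp only [hK]
  rw [h3, lintegral_lintegral_swap hmeas.aemeasurable]
  have h4 : ∫⁻ v in Metric.closedBall (0 : ℂ) s, (∫⁻ g in dG F, W g v ∂mG) =
      ∫⁻ _ in Metric.closedBall (0 : ℂ) s, (∫⁻ z in F, h z) := lintegral_congr h2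
  rw [h4, lintegral_const, Measure.restrict_apply MeasurableSet.univ, univ_inter, mul_comm]

theorem VGD_le {α : Type} [MeasurableSpace α] (μ : Measure α) (f : α → ℝ) (hf : ∀ x, 0 ≤ f x) :
    ENNReal.ofReal (∫ x, f x ∂μ) ≤ ∫⁻ x, ENNReal.ofReal (f x) ∂μ := by
  by_cases hi : Integrable f μ
  · rw [ofReal_integral_eq_lintegral_ofReal hi (Eventually.of_forall hf)]
  · rw [integral_undef hi, ENNReal.ofReal_zero]
    exact bot_le

/-- the inequality for the integrals over the balls -/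
theorem VGD_main {Γ : Subgroup SL(2, ℝ)} {F : Set ℍ} (hD : Dm Γ F) (H : ℍ → ℝ) (hc : Continuous H)
    (h0 : ∀ z, 0 ≤ H z) (hinv : ∀ (γ : Γ) (z : ℍ), H (γ • z) = H z) (hint : IntegrableOn H F) {s K : ℝ}
    (hs0 : 0 < s) (hs : s < 2) (hK0 : 0 ≤ K) (hK : K * Real.pi ≤ 4) (A : SL(2, ℝ) → ℂ → ℝ)
    (hA0 : ∀ g v, 0 ≤ A g v) (hA : ∀ g v, ‖v‖ ≤ s → A g v ≤ K * H (g • cdi v)) :
    ∫ g in dG F, (∫ v in Metric.closedBall (0 : ℂ) s, A g v) ∂mG ≤ 4 * s ^ 2 * ∫ z in F, H z := by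
  have hn : 0 ≤ ∫ z in F, H z := integral_nonneg h0
  have hb : 0 ≤ 4 * s ^ 2 * ∫ z in F, H z := by positivity
  rw [← ENNReal.ofReal_le_ofReal_iff hb]
  refine (VGD_le _ _ fun g => integral_nonneg fun v => hA0 g v).trans ?_
  have e1 : ∀ g : SL(2, ℝ), ENNReal.ofReal (∫ v in Metric.closedBall (0 : ℂ) s, A g v) ≤
      ENNReal.ofReal K * ∫⁻ v in Metric.closedBall (0 : ℂ) s, ENNReal.ofReal (H (g • cdi v)) := by
    intro g
    refine (VGD_le _ _ fun v => hA0 g v).trans ?_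
    rw [← lintegral_const_mul' _ _ ENNReal.ofReal_ne_top]
    refine setLIntegral_mono' Metric.isClosed_closedBall.measurableSet fun v hv => ?_
    rw [← ENNReal.ofReal_mul hK0]
    exact ENNReal.ofReal_le_ofReal (hA g v (mem_closedBall_zero_iff.1 hv))
  refine (lintegral_mono e1).trans ?_
  rw [lintegral_const_mul' _ _ ENNReal.ofReal_ne_top,
    VGD_fub hD (fun z => ENNReal.ofReal (H z)) hc.measurable.ennreal_ofReal (fun γ z => by rw [hinv]) hs,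
    ← ofReal_integral_eq_lintegral_ofReal hint (Eventually.of_forall h0), Complex.volume_closedBall]
  have e2 : (ENNReal.ofReal s ^ 2 * (NNReal.pi : ℝ≥0∞)) = ENNReal.ofReal (s ^ 2 * Real.pi) := by
    rw [ENNReal.ofReal_mul (by positivity), ENNReal.ofReal_pow hs0.le]
    congr 1
    rw [← NNReal.coe_real_pi, ENNReal.ofReal_coe_nnreal]
  rw [e2, ← ENNReal.ofReal_mul (by positivity), ← ENNReal.ofReal_mul hK0]
  apply ENNReal.ofReal_le_ofReal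
  have e3 : K * (s ^ 2 * Real.pi * ∫ z in F, H z) = (K * Real.pi) * (s ^ 2 * ∫ z in F, H z) := by ring
  have e4 : 4 * s ^ 2 * ∫ z in F, H z = 4 * (s ^ 2 * ∫ z in F, H z) := by ring
  rw [e3, e4]
  exact mul_le_mul_of_nonneg_right hK (by positivity)

/-! ## Green's formula -/

theorem VGD_cd1 {E : Type} [NormedAddCommGroup E] [NormedSpace ℝ E] {φ : ℍ → E} (hφ : QU.CD 2 φ) :
    QU.CD 1 (QU.dX φ) ∧ QU.CD 1 (QU.dY φ) := by
  have h := (QU.A_CA1 E).2.2.2.2.1 φ 1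
  have e : (((1 : ℕ) : WithTop ℕ∞) + 1) = 2 := by norm_num
  rw [e] at h
  have h2 := h hφ
  rwa [Nat.cast_one] at h2

theorem VGD_cd0 {E : Type} [NormedAddCommGroup E] [NormedSpace ℝ E] {φ : ℍ → E} (hφ : QU.CD 1 φ) :
    Continuous (QU.dX φ) ∧ Continuous (QU.dY φ) := by
  have h := (QU.A_CA1 E).2.2.2.2.1 φ 0
  have e : (((0 : ℕ) : WithTop ℕ∞) + 1) = 1 := by norm_num
  rw [e] at h
  have h2 := h hφ
  rw [Nat.cast_zero] at h2
  exact ⟨((QU.A_CA1 E).1 _).1 h2.1, ((QU.A_CA1 E).1 _).1 h2.2⟩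

theorem VGD_cont {E : Type} [NormedAddCommGroup E] [NormedSpace ℝ E] {φ : ℍ → E} (hφ : QU.CD 2 φ) :
    Continuous φ ∧ Continuous (QU.dX φ) ∧ Continuous (QU.dY φ) ∧ Continuous (QU.lap φ) := by
  have hm := (QU.A_CA1 E).2.1
  have h1 := VGD_cd1 hφ
  have c0 := (QU.A_CA1 E).1
  have hle : (0 : WithTop ℕ∞) ≤ 1 := by norm_num
  refine ⟨(c0 _).1 (hm φ 0 2 (by norm_num) hφ), (c0 _).1 (hm _ 0 1 hle h1.1), (c0 _).1 (hm _ 0 1 hle h1.2), ?_⟩
  have e : QU.lap φ = fun z => -QU.dX (QU.dX φ) z - QU.dY (QU.dY φ) z + QU.dY φ z := by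
    funext z
    exact (QU.A_CA2 E φ hφ z).2
  rw [e]
  exact (((VGD_cd0 h1.1).1.neg).sub (VGD_cd0 h1.2).2).add ((c0 _).1 (hm _ 0 1 hle h1.2))

theorem VGD_Gcont {φ : ℍ → ℂ} (hφ : QU.CD 2 φ) : Continuous (VGD_G φ) := by
  obtain ⟨-, h1, h2, -⟩ := VGD_cont hφ
  exact (h1.norm.pow 2).add (h2.norm.pow 2)

theorem VGD_supp {φ : ℍ → ℂ} (hφ : QU.CD 2 φ) {z : ℍ} (hz : z ∉ tsupport φ) :
    φ z = 0 ∧ VGD_G φ z = 0 ∧ QU.lap φ z = 0 := by
  have ht := (QU.A_CA1 ℂ).2.2.2.2.2.2.2.2.2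
  have hX : ∀ ψ : ℍ → ℂ, z ∉ tsupport ψ → QU.dX ψ z = 0 := fun ψ h =>
    image_eq_zero_of_notMem_tsupport fun h' => h ((ht ψ).1 h')
  have hY : ∀ ψ : ℍ → ℂ, z ∉ tsupport ψ → QU.dY ψ z = 0 := fun ψ h =>
    image_eq_zero_of_notMem_tsupport fun h' => h ((ht ψ).2 h')
  refine ⟨image_eq_zero_of_notMem_tsupport hz, ?_, ?_⟩
  · unfold VGD_G
    rw [hX φ hz, hY φ hz]
    simp
  · rw [(QU.A_CA2 ℂ φ hφ z).2, hX _ (fun h' => hz ((ht φ).1 h')), hY _ (fun h' => hz ((ht φ).2 h')), hY φ hz]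
    simp

theorem VGD_int {Γ : Subgroup SL(2, ℝ)} {F : Set ℍ} (hD : Dm Γ F) {φ : ℍ → ℂ} (hφ : FH Γ F φ)
    {E : Type} [NormedAddCommGroup E] {h : ℍ → E} (hc : Continuous h) (hs : ∀ z, z ∉ tsupport φ → h z = 0) :
    IntegrableOn h F := by
  rcases hD with ⟨-, hF⟩ | ⟨-, hF⟩
  · exact RPQ.SPM_int hF hc
  · rw [hF, integrableOn_univ]
    obtain ⟨b, hb⟩ := hφ.supp
    rw [hF] at hb
    have h1 : tsupport φ ⊆ Metric.closedBall I b := by
      refine closure_minimal ?_ Metric.isClosed_closedBall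
      intro z hz
      exact hb z (mem_univ z) hz
    have h2 : IsCompact (tsupport φ) :=
      (isCompact_closedBall I b).of_isClosed_subset (isClosed_tsupport φ) h1
    exact hc.integrable_of_hasCompactSupport (HasCompactSupport.intro h2 fun z hz => hs z hz)

theorem VGD_lap1 {E : Type} [NormedAddCommGroup E] [NormedSpace ℝ E] (c : E) (z : ℍ) :
    QU.lap (fun _ : ℍ => c) z = 0 := by
  unfold QU.lap
  have h1 : QU.onC (fun _ : ℍ => c) = fun _ => c := rfl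
  have h2 : fderiv ℝ (fun _ : ℂ => c) = fun _ => 0 := by
    funext w
    exact fderiv_const_apply c
  rw [h1, h2]
  simp

theorem VGD_green {Γ : Subgroup SL(2, ℝ)} {F : Set ℍ} (hD : Dm Γ F) {φ : ℍ → ℂ} (hφ : FH Γ F φ)
    (hc : QU.CD 2 φ) : ∫ z in F, VGD_G φ z = ∫ z in F, inner ℝ (φ z) (QU.lap φ z) := by
  obtain ⟨c0, -, -, c3⟩ := VGD_cont hc
  have i1 : IntegrableOn (VGD_G φ) F := VGD_int hD hφ (VGD_Gcont hc) fun z hz => (VGD_supp hc hz).2.1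
  have i2 : IntegrableOn (fun z => inner ℝ (φ z) (QU.lap φ z) : ℍ → ℝ) F :=
    VGD_int hD hφ (c0.inner c3) fun z hz => by rw [(VGD_supp hc hz).1, inner_zero_left]
  have hz : ∫ z in F, (2 * inner ℝ (φ z) (QU.lap φ z) - 2 * VGD_G φ z : ℝ) = 0 := by
    rcases hD with ⟨hΓ, hF⟩ | ⟨-, hF⟩
    · have h1 := RPQ.SPM_green hΓ hF (φ := fun z => ((‖φ z‖ ^ 2 : ℝ) : ℂ)) (v := fun _ => 1) (VGD_cdP hc)
        ((QU.A_CA1 ℂ).2.2.2.2.2.2.2.2.1 1 2)
        ⟨(VGD_cont (VGD_cdP hc)).1, fun γ z => by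
          show ((‖φ (γ • z)‖ ^ 2 : ℝ) : ℂ) = ((‖φ z‖ ^ 2 : ℝ) : ℂ)
          rw [hφ.inv]⟩ ⟨continuous_const, fun _ _ => rfl⟩
        (VGD_cont (VGD_cdP hc)).2.2.2 (by
          have e : QU.lap (fun _ : ℍ => (1 : ℂ)) = fun _ => 0 := funext fun z => VGD_lap1 1 z
          rw [e]
          exact continuous_const)
      simp only [VGD_lapP hc, VGD_lap1, map_zero, mul_zero, integral_zero, map_one, mul_one] at h1
      rw [integral_complex_ofReal] at h1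
      exact_mod_cast h1
    · have hcs : HasCompactSupport φ := by
        obtain ⟨b, hb⟩ := hφ.supp
        rw [hF] at hb
        have h1 : tsupport φ ⊆ Metric.closedBall I b := by
          refine closure_minimal ?_ Metric.isClosed_closedBall
          intro z hz
          exact hb z (mem_univ z) hz
        exact (isCompact_closedBall I b).of_isClosed_subset (isClosed_tsupport φ) h1
      have hcs2 : HasCompactSupport (fun z => ‖φ z‖ ^ 2) :=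
        HasCompactSupport.intro hcs.isCompact fun z hz => by rw [(VGD_supp hc hz).1]; simp
      have h1 := QU.A_GRN ℝ (fun z => ‖φ z‖ ^ 2) (fun _ => 1) (VGD_cdN hc)
        ((QU.A_CA1 ℝ).2.2.2.2.2.2.2.2.1 1 2) hcs2
      simp only [VGD_lapN hc, VGD_lap1, smul_eq_mul, mul_one, mul_zero, integral_zero] at h1
      rw [hF, setIntegral_univ]
      exact h1.symm
  rw [integral_sub (i2.const_mul 2) (i1.const_mul 2), integral_const_mul, integral_const_mul] at hz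
  linarith

theorem VGD_cdi0 : cdi 0 = I := by
  unfold cdi
  have h : Complex.I * (2 + 0) / (2 - 0) = ((I : ℍ) : ℂ) := by
    rw [coe_I]
    norm_num
  rw [h, ofComplex_apply]

theorem VGD_Ginv (hVLP : VLP_stmt) {Γ : Subgroup SL(2, ℝ)} {φ : ℍ → ℂ} (hφ : QU.CD 2 φ)
    (hinv : ∀ (γ : Γ) (z : ℍ), φ (γ • z) = φ z) (γ : Γ) (z : ℍ) : VGD_G φ (γ • z) = VGD_G φ z := by
  have h1 : ∀ g : SL(2, ℝ), VGD_G φ (g • I) = (1 - ‖(0 : ℂ)‖ ^ 2 / 4) ^ 2 *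
      (‖fderiv ℝ (fun w : ℂ => φ (g • cdi w)) 0 1‖ ^ 2 + ‖fderiv ℝ (fun w : ℂ => φ (g • cdi w)) 0 Complex.I‖ ^ 2) := by
    intro g
    have := VGD_grad hVLP hφ g (v := 0) (by simp)
    rw [VGD_cdi0] at this
    exact this
  have h2 := h1 (toSL2R z)
  have h3 := h1 ((γ : SL(2, ℝ)) * toSL2R z)
  have h4 : (fun w : ℂ => φ (((γ : SL(2, ℝ)) * toSL2R z) • cdi w)) = fun w : ℂ => φ (toSL2R z • cdi w) := by
    funext w
    rw [mul_smul]
    exact hinv γ _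
  rw [h4, ← h2, mul_smul, toSL2R_smul_I] at h3
  exact h3

theorem VGD_pt {a r L : ℂ} {c R : ℝ} (hR : 1 ≤ R) (hc : c ≤ 3 * R ^ 2) (hL : r = L - (c : ℂ) * a) :
    inner ℝ a L ≤ 4 * R ^ 2 * ‖a‖ ^ 2 + (R ^ 2)⁻¹ * ‖r‖ ^ 2 := by
  have h1 : L = c • a + r := by
    rw [hL, Complex.real_smul]
    ring
  rw [h1, inner_add_right, inner_smul_right, real_inner_self_eq_norm_sq]
  have h2 : inner ℝ a r ≤ ‖a‖ * ‖r‖ := real_inner_le_norm a r
  have h3 : ‖a‖ * ‖r‖ ≤ R ^ 2 * ‖a‖ ^ 2 + (R ^ 2)⁻¹ * ‖r‖ ^ 2 := by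
    have h4 : 0 ≤ (R * ‖a‖ - R⁻¹ * ‖r‖) ^ 2 := sq_nonneg _
    have h5 : (R * ‖a‖ - R⁻¹ * ‖r‖) ^ 2 = R ^ 2 * ‖a‖ ^ 2 + (R ^ 2)⁻¹ * ‖r‖ ^ 2 - 2 * (‖a‖ * ‖r‖) := by
      have hR0 : R ≠ 0 := by linarith
      field_simp
      ring
    have h6 : 0 ≤ ‖a‖ * ‖r‖ := by positivity
    linarith
  have h7 : c * ‖a‖ ^ 2 ≤ 3 * R ^ 2 * ‖a‖ ^ 2 := mul_le_mul_of_nonneg_right hc (by positivity)
  linarith

theorem VGD_proof (hVLP : VLP_stmt) : VGD_stmt := by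
  intro Γ F hD
  constructor
  · intro f s hf hs0 hs
    have hc : Continuous fun z => ‖f z‖ ^ 2 := hf.cont.norm.pow 2
    have hi : IntegrableOn (fun z => ‖f z‖ ^ 2) F := VGD_int hD hf hc fun z hz => by
      rw [image_eq_zero_of_notMem_tsupport hz]
      simp
    exact VGD_main hD (fun z => ‖f z‖ ^ 2) hc (fun z => by positivity) (fun γ z => by rw [hf.inv]) hi hs0
      (by linarith) (K := 1) zero_le_one (by linarith [Real.pi_lt_d2]) (fun g v => ‖f (g • cdi v)‖ ^ 2)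
      (fun g v => by positivity) (fun g v _ => by rw [one_mul])
  · intro φ U s R E0 hφ hc hU hs0 hs hR hE
    have hG0 : ∀ z, 0 ≤ VGD_G φ z := fun z => by unfold VGD_G; positivity
    have i1 : IntegrableOn (VGD_G φ) F := VGD_int hD hφ (VGD_Gcont hc) fun z hz => (VGD_supp hc hz).2.1
    obtain ⟨c0, -, -, c3⟩ := VGD_cont hc
    have h1 := VGD_main hD (VGD_G φ) (VGD_Gcont hc) hG0 (VGD_Ginv hVLP hc hφ.inv) i1 hs0 (by linarith)
      (K := 256 / 225) (by norm_num) (by linarith [Real.pi_lt_d2])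
      (fun g v => ‖fderiv ℝ (fun w : ℂ => φ (g • cdi w)) v 1‖ ^ 2 +
        ‖fderiv ℝ (fun w : ℂ => φ (g • cdi w)) v Complex.I‖ ^ 2) (fun g v => by positivity) (fun g v hv => by
        show ‖fderiv ℝ (fun w : ℂ => φ (g • cdi w)) v 1‖ ^ 2 +
          ‖fderiv ℝ (fun w : ℂ => φ (g • cdi w)) v Complex.I‖ ^ 2 ≤ _
        rw [VGD_grad hVLP hc g (by linarith : ‖v‖ < 2)]
        obtain ⟨A, hA⟩ : ∃ A : ℝ, A = ‖fderiv ℝ (fun w : ℂ => φ (g • cdi w)) v 1‖ ^ 2 +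
          ‖fderiv ℝ (fun w : ℂ => φ (g • cdi w)) v Complex.I‖ ^ 2 := ⟨_, rfl⟩
        rw [← hA]
        have hA0 : 0 ≤ A := by rw [hA]; positivity
        have hv2 : ‖v‖ ^ 2 ≤ 1 / 4 := by
          have := norm_nonneg v
          nlinarith
        have h3 : 225 / 256 ≤ (1 - ‖v‖ ^ 2 / 4) ^ 2 := by nlinarith [sq_nonneg ‖v‖]
        nlinarith [mul_le_mul_of_nonneg_right h3 hA0])
    refine h1.trans (mul_le_mul_of_nonneg_left ?_ (by positivity))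
    rw [VGD_green hD hφ hc]
    obtain ⟨r, hr⟩ : ∃ r : ℍ → ℂ, r = fun z => QU.lap φ z - ((R ^ 2 * (U z + 2 * E0) : ℝ) : ℂ) * φ z := ⟨_, rfl⟩
    rw [← hr]
    have hrc : Continuous r := by
      rw [hr]
      exact c3.sub ((Complex.continuous_ofReal.comp (continuous_const.mul (hU.inv.1.add continuous_const))).mul c0)
    have hrs : ∀ z, z ∉ tsupport φ → r z = 0 := by
      intro z hz
      rw [hr]
      show QU.lap φ z - ((R ^ 2 * (U z + 2 * E0) : ℝ) : ℂ) * φ z = 0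
      rw [(VGD_supp hc hz).1, (VGD_supp hc hz).2.2]
      simp
    have i2 : IntegrableOn (fun z => inner ℝ (φ z) (QU.lap φ z) : ℍ → ℝ) F :=
      VGD_int hD hφ (c0.inner c3) fun z hz => by rw [(VGD_supp hc hz).1, inner_zero_left]
    have i3 : IntegrableOn (fun z => ‖φ z‖ ^ 2) F := VGD_int hD hφ (c0.norm.pow 2) fun z hz => by
      rw [(VGD_supp hc hz).1]; simp
    have i4 : IntegrableOn (fun z => ‖r z‖ ^ 2) F := VGD_int hD hφ (hrc.norm.pow 2) fun z hz => by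
      rw [hrs z hz]; simp
    unfold nn
    rw [← integral_const_mul, ← integral_const_mul, ← integral_add (i3.const_mul _) (i4.const_mul _)]
    refine setIntegral_mono i2 ((i3.const_mul _).add (i4.const_mul _)) fun z => ?_
    show inner ℝ (φ z) (QU.lap φ z) ≤ 4 * R ^ 2 * ‖φ z‖ ^ 2 + (R ^ 2)⁻¹ * ‖r z‖ ^ 2
    refine VGD_pt (c := R ^ 2 * (U z + 2 * E0)) hR ?_ (by rw [hr])
    have h4 := (hU.bd z).2
    have h5 := (abs_le.1 hE).2
    have h6 : 0 ≤ R ^ 2 := sq_nonneg R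
    nlinarith

end

end Pool.Agent.VQ
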